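import Mathlib

/-!
# Circulant automorphisms moving the involution `2 h`

For every odd `h ≥ 3` the set `S ⊆ ℤ / 4h` consisting of the odd residues and `2 h` gives a
negative answer: `Cay(ℤ / 4h, S*)` is complete bipartite, so it has an automorphism fixing `0` and
moving `2 h`, but no subgroup `K` of order twice an odd integer satisfies
`(S \ K_o) + ⟨h⟩ ⊆ S ∪ K_o`. A second example has `h = 6`. In both cases `Cay(ℤ / 4h, S)` is
connected, not bipartite and twin-free.
-/

namespace Pool.Agent.Results.MP_250e3d_co.OddResidues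

/-- The Cayley graph of an additive group with respect to an inverse-closed set without `0`. -/
def Cay {A : Type*} [AddCommGroup A] (T : Set A) (hT : ∀ x ∈ T, -x ∈ T) (h0 : (0 : A) ∉ T) :
    SimpleGraph A where
  Adj x y := y - x ∈ T
  symm := ⟨fun x y h => by
    have := hT _ h
    rwa [neg_sub] at this⟩
  loopless := ⟨fun x h => by
    rw [sub_self] at h
    exact h0 h⟩

/-- `S* = (S \ {2h}) + 2h`. -/
def star (h : ℕ) (S : Set (ZMod (4 * h))) : Set (ZMod (4 * h)) :=
  {x | ∃ s ∈ S, s ≠ ((2 * h : ℕ) : ZMod (4 * h)) ∧ x = s + ((2 * h : ℕ) : ZMod (4 * h))}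

/-- `K_o = K \ 2K`. -/
def Ko {A : Type*} [AddCommGroup A] (K : AddSubgroup A) : Set A :=
  {x | x ∈ K ∧ ¬ ∃ k ∈ K, x = 2 • k}

theorem two_h_add (h : ℕ) : ((2 * h : ℕ) : ZMod (4 * h)) + ((2 * h : ℕ) : ZMod (4 * h)) = 0 := by
  rw [← Nat.cast_add, show 2 * h + 2 * h = 4 * h by ring, ZMod.natCast_self]

theorem neg_two_h (h : ℕ) : -((2 * h : ℕ) : ZMod (4 * h)) = ((2 * h : ℕ) : ZMod (4 * h)) :=
  neg_eq_of_add_eq_zero_left (two_h_add h)

theorem star_neg {h : ℕ} {S : Set (ZMod (4 * h))} (hS : ∀ x ∈ S, -x ∈ S) :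
    ∀ x ∈ star h S, -x ∈ star h S := by
  rintro _ ⟨s, hs, hne, rfl⟩
  refine ⟨-s, hS s hs, ?_, ?_⟩
  · intro e
    apply hne
    rw [← neg_neg s, e, neg_two_h]
  · rw [neg_add, neg_two_h]

theorem star_zero {h : ℕ} {S : Set (ZMod (4 * h))} : (0 : ZMod (4 * h)) ∉ star h S := by
  rintro ⟨s, _, hne, e⟩
  apply hne
  rw [← neg_two_h]
  exact eq_neg_of_add_eq_zero_left e.symm

/-- Connected, not bipartite and no two distinct vertices have the same neighbourhood. -/
def Nontrivial' {V : Type*} (G : SimpleGraph V) : Prop :=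
  G.Connected ∧ ¬ G.Colorable 2 ∧ ∀ x y, (∀ z, G.Adj x z ↔ G.Adj y z) → x = y

/-- The negated form of the question for given `h` and `S`: `Cay(ℤ/4h, S*)` has an automorphism
fixing `0` and moving `2h`, but no subgroup of order twice an odd integer is as required. -/
def IsCounterexample (h : ℕ) (S : Set (ZMod (4 * h))) (hS : ∀ x ∈ S, -x ∈ S) : Prop :=
  (∃ σ : Cay (star h S) (star_neg hS) star_zero ≃g Cay (star h S) (star_neg hS) star_zero,
    σ 0 = 0 ∧ σ ((2 * h : ℕ) : ZMod (4 * h)) ≠ ((2 * h : ℕ) : ZMod (4 * h))) ∧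
  ∀ K : AddSubgroup (ZMod (4 * h)), (∃ q, Odd q ∧ Nat.card K = 2 * q) →
    ¬ ∀ a ∈ S, a ∉ Ko K → ∀ b ∈ AddSubgroup.zmultiples ((h : ℕ) : ZMod (4 * h)),
      a + b ∈ S ∪ Ko K

/-! ## Odd `h` -/

section odd

variable {h : ℕ}

/-- Parity on `ℤ / 4h`. -/
noncomputable def par (h : ℕ) : ZMod (4 * h) →+* ZMod 2 :=
  ZMod.castHom (show 2 ∣ 4 * h from ⟨2 * h, by ring⟩) (ZMod 2)

theorem par_natCast (h n : ℕ) : par h (n : ZMod (4 * h)) = (n : ZMod 2) := map_natCast _ _

/-- The odd residues together with `2h`. -/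
def oddSet (h : ℕ) : Set (ZMod (4 * h)) := {x | par h x = 1 ∨ x = ((2 * h : ℕ) : ZMod (4 * h))}

theorem par_two_h : par h ((2 * h : ℕ) : ZMod (4 * h)) = 0 := by
  rw [par_natCast, Nat.cast_mul]
  rw [show ((2 : ℕ) : ZMod 2) = 0 from rfl, zero_mul]

theorem oddSet_neg : ∀ x ∈ oddSet h, -x ∈ oddSet h := by
  rintro x (hx | rfl)
  · left
    rw [map_neg, hx]
    rfl
  · right
    exact neg_two_h h

theorem two_h_ne_zero (hh : 3 ≤ h) : ((2 * h : ℕ) : ZMod (4 * h)) ≠ 0 := by
  rw [Ne, ZMod.natCast_eq_zero_iff]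
  intro hd
  have := Nat.le_of_dvd (by omega) hd
  omega

theorem oddSet_zero (hh : 3 ≤ h) : (0 : ZMod (4 * h)) ∉ oddSet h := by
  rintro (hx | hx)
  · rw [map_zero] at hx
    exact absurd hx (by decide)
  · exact two_h_ne_zero hh hx.symm

theorem star_oddSet {x : ZMod (4 * h)} : x ∈ star h (oddSet h) ↔ par h x = 1 := by
  constructor
  · rintro ⟨s, hs, hne, rfl⟩
    rw [map_add, par_two_h, add_zero]
    exact hs.resolve_right hne
  · intro hx
    refine ⟨x + ((2 * h : ℕ) : ZMod (4 * h)), Or.inl ?_, ?_, ?_⟩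
    · rw [map_add, par_two_h, add_zero, hx]
    · intro e
      have : x = 0 := by simpa using e
      rw [this, map_zero] at hx
      exact absurd hx (by decide)
    · rw [add_assoc, two_h_add, add_zero]

theorem zmod2_cases (a : ZMod 2) : a = 0 ∨ a = 1 := by
  revert a
  decide

theorem nontrivial_oddSet (hh : 3 ≤ h) :
    Nontrivial' (Cay (oddSet h) oddSet_neg (oddSet_zero hh)) := by
  set G := Cay (oddSet h) oddSet_neg (oddSet_zero hh) with hG
  have hadj : ∀ x y, par h x ≠ par h y → G.Adj x y := by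
    intro x y hxy
    left
    rw [map_sub]
    rcases zmod2_cases (par h x) with a | a <;> rcases zmod2_cases (par h y) with b | b <;>
      rw [a, b] at hxy ⊢ <;> first | exact absurd rfl hxy | rfl
  have hp1 : par h 1 = 1 := map_one _
  have hp0 : par h 0 = 0 := map_zero _
  refine ⟨?_, ?_, ?_⟩
  · rw [SimpleGraph.connected_iff]
    refine ⟨?_, ⟨0⟩⟩
    have h01 : G.Adj 0 1 := hadj 0 1 (by rw [hp0, hp1]; decide)
    have hreach : ∀ x, G.Reachable 0 x := by
      intro x
      rcases zmod2_cases (par h x) with a | a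
      · exact h01.reachable.trans (hadj 1 x (by rw [hp1, a]; decide)).reachable
      · exact (hadj 0 x (by rw [hp0, a]; decide)).reachable
    exact fun x y => (hreach x).symm.trans (hreach y)
  · rintro ⟨c⟩
    have a1 : G.Adj 0 1 := hadj 0 1 (by rw [hp0, hp1]; decide)
    have a2 : G.Adj ((2 * h : ℕ) : ZMod (4 * h)) 1 := hadj _ _ (by rw [par_two_h, hp1]; decide)
    have a3 : G.Adj 0 ((2 * h : ℕ) : ZMod (4 * h)) := by
      right
      rw [sub_zero]
    have b1 := c.valid a1
    have b2 := c.valid a2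
    have b3 := c.valid a3
    generalize c 0 = u at *
    generalize c 1 = v at *
    generalize c ((2 * h : ℕ) : ZMod (4 * h)) = w at *
    revert u v w
    decide
  · intro x y hxy
    by_cases hp : par h x = par h y
    · have h1 : G.Adj y (y + ((2 * h : ℕ) : ZMod (4 * h))) := by
        right
        rw [add_sub_cancel_left]
      have h2 := (hxy _).2 h1
      rcases h2 with h2 | h2
      · rw [map_sub, map_add, par_two_h, add_zero, hp, sub_self] at h2
        exact absurd h2 (by decide)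
      · have : y - x = 0 := by
          have e : y + ((2 * h : ℕ) : ZMod (4 * h)) - x =
            (y - x) + ((2 * h : ℕ) : ZMod (4 * h)) := by ring
          rw [e] at h2
          simpa using h2
        exact (sub_eq_zero.1 this).symm
    · have h1 : G.Adj x y := hadj x y hp
      exact absurd ((hxy y).1 h1) (G.loopless.irrefl y)

theorem counterexample_oddSet (ho : Odd h) (hh : 3 ≤ h) :
    IsCounterexample h (oddSet h) oddSet_neg := by
  classical
  refine ⟨?_, ?_⟩
  · -- swap `2` and `2h`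
    have key : ∀ (σ : Equiv.Perm (ZMod (4 * h))), (∀ x, par h (σ x) = par h x) →
        ∀ x y, (Cay (star h (oddSet h)) (star_neg oddSet_neg) star_zero).Adj (σ x) (σ y) ↔
          (Cay (star h (oddSet h)) (star_neg oddSet_neg) star_zero).Adj x y := by
      intro σ hσ x y
      show σ y - σ x ∈ star h (oddSet h) ↔ y - x ∈ star h (oddSet h)
      rw [star_oddSet, star_oddSet, map_sub, map_sub, hσ, hσ]
    have hp2 : par h ((2 : ℕ) : ZMod (4 * h)) = 0 := by
      rw [par_natCast]; rfl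
    have h20 : ((2 : ℕ) : ZMod (4 * h)) ≠ 0 := by
      rw [Ne, ZMod.natCast_eq_zero_iff]
      intro hd
      have := Nat.le_of_dvd (by omega) hd
      omega
    have h2h : ((2 : ℕ) : ZMod (4 * h)) ≠ ((2 * h : ℕ) : ZMod (4 * h)) := by
      intro e
      have := (ZMod.natCast_eq_natCast_iff' _ _ _).1 e
      rw [Nat.mod_eq_of_lt (by omega), Nat.mod_eq_of_lt (by omega)] at this
      omega
    refine ⟨⟨Equiv.swap ((2 : ℕ) : ZMod (4 * h)) ((2 * h : ℕ) : ZMod (4 * h)), ?_⟩, ?_, ?_⟩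
    · intro x y
      refine key _ (fun x => ?_) x y
      by_cases e1 : x = ((2 : ℕ) : ZMod (4 * h))
      · rw [e1, Equiv.swap_apply_left, par_two_h, hp2]
      · by_cases e2 : x = ((2 * h : ℕ) : ZMod (4 * h))
        · rw [e2, Equiv.swap_apply_right, par_two_h, hp2]
        · rw [Equiv.swap_apply_of_ne_of_ne e1 e2]
    · show Equiv.swap _ _ (0 : ZMod (4 * h)) = 0
      exact Equiv.swap_apply_of_ne_of_ne h20.symm (two_h_ne_zero hh).symm
    · show Equiv.swap _ _ ((2 * h : ℕ) : ZMod (4 * h)) ≠ _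
      rw [Equiv.swap_apply_right]
      exact h2h
  · rintro K ⟨q, hq, hK⟩ hall
    have hpar : par h (-(h : ZMod (4 * h))) = 1 := by
      rw [map_neg, par_natCast]
      obtain ⟨k, rfl⟩ := ho
      rw [Nat.cast_add, Nat.cast_mul, show ((2 : ℕ) : ZMod 2) = 0 from rfl, zero_mul]
      rfl
    have hnotK : -(h : ZMod (4 * h)) ∉ Ko K := by
      rintro ⟨hmem, _⟩
      have hmem' : (h : ZMod (4 * h)) ∈ K := by
        have := K.neg_mem hmem
        rwa [neg_neg] at this
      have hord : addOrderOf (h : ZMod (4 * h)) = 4 := by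
        rw [ZMod.addOrderOf_coe h (by omega), Nat.gcd_eq_right ⟨4, by ring⟩]
        exact Nat.mul_div_cancel 4 (by omega)
      have hdvd : addOrderOf (⟨(h : ZMod (4 * h)), hmem'⟩ : K) ∣ Nat.card K :=
        addOrderOf_dvd_natCard _
      rw [AddSubgroup.addOrderOf_mk, hord, hK] at hdvd
      obtain ⟨k, rfl⟩ := hq
      omega
    have h0 := hall (-(h : ZMod (4 * h))) (Or.inl hpar) hnotK (h : ZMod (4 * h))
      (AddSubgroup.mem_zmultiples _)
    rw [neg_add_cancel] at h0
    rcases h0 with h0 | h0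
    · exact oddSet_zero hh h0
    · exact h0.2 ⟨0, K.zero_mem, by rw [smul_zero]⟩

end odd

/-! ## The example with `h = 6` -/

/-- The set `{±1, ±4, ±7, ±9}` in `ℤ / 24`. -/
def S6 : Finset (ZMod (4 * 6)) := {1, 4, 7, 9, 15, 17, 20, 23}

theorem S6_neg : ∀ x ∈ (S6 : Set (ZMod (4 * 6))), -x ∈ (S6 : Set (ZMod (4 * 6))) := by
  have : ∀ x ∈ S6, -x ∈ S6 := by decide
  exact_mod_cast this

theorem S6_zero : (0 : ZMod (4 * 6)) ∉ (S6 : Set (ZMod (4 * 6))) := by
  have : (0 : ZMod (4 * 6)) ∉ S6 := by decide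
  exact_mod_cast this

theorem star_S6 {x : ZMod (4 * 6)} : x ∈ star 6 (S6 : Set (ZMod (4 * 6))) ↔
    x ∈ ({3, 5, 8, 11, 13, 16, 19, 21} : Finset (ZMod (4 * 6))) := by
  have : ∀ x : ZMod (4 * 6), (∃ s ∈ S6, s ≠ ((2 * 6 : ℕ) : ZMod (4 * 6)) ∧
      x = s + ((2 * 6 : ℕ) : ZMod (4 * 6))) ↔
      x ∈ ({3, 5, 8, 11, 13, 16, 19, 21} : Finset (ZMod (4 * 6))) := by
    decide +kernel
  exact this x

theorem nontrivial_S6 : Nontrivial' (Cay (S6 : Set (ZMod (4 * 6))) S6_neg S6_zero) := by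
  set G := Cay (S6 : Set (ZMod (4 * 6))) S6_neg S6_zero with hG
  have hadj : ∀ x y : ZMod (4 * 6), y - x ∈ S6 → G.Adj x y := fun x y h => h
  refine ⟨?_, ?_, ?_⟩
  · rw [SimpleGraph.connected_iff]
    refine ⟨?_, ⟨0⟩⟩
    have hstep : ∀ x : ZMod (4 * 6), G.Reachable x (x + 1) := fun x =>
      (hadj x (x + 1) (by rw [add_sub_cancel_left]; decide)).reachable
    have hreach : ∀ n : ℕ, G.Reachable 0 (n : ZMod (4 * 6)) := by
      intro n
      induction n with
      | zero => rw [Nat.cast_zero]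
      | succ n ih => rw [Nat.cast_succ]; exact ih.trans (hstep _)
    intro x y
    have hx := hreach x.val
    have hy := hreach y.val
    rw [ZMod.natCast_zmod_val] at hx hy
    exact hx.symm.trans hy
  · rintro ⟨c⟩
    have a1 : G.Adj 0 4 := hadj _ _ (by decide)
    have a2 : G.Adj 4 13 := hadj _ _ (by decide)
    have a3 : G.Adj 13 22 := hadj _ _ (by decide)
    have a4 : G.Adj 22 23 := hadj _ _ (by decide)
    have a5 : G.Adj 23 0 := hadj _ _ (by decide)
    have b1 := c.valid a1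
    have b2 := c.valid a2
    have b3 := c.valid a3
    have b4 := c.valid a4
    have b5 := c.valid a5
    generalize c 0 = u0 at *
    generalize c 4 = u1 at *
    generalize c 13 = u2 at *
    generalize c 22 = u3 at *
    generalize c 23 = u4 at *
    revert u0 u1 u2 u3 u4
    decide
  · intro x y hxy
    have : ∀ x y : ZMod (4 * 6), (∀ z, z - x ∈ S6 ↔ z - y ∈ S6) → x = y := by
      decide +kernel
    exact this x y hxy

theorem counterexample_S6 : IsCounterexample 6 (S6 : Set (ZMod (4 * 6))) S6_neg := by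
  refine ⟨?_, ?_⟩
  · refine ⟨⟨Equiv.swap (4 : ZMod (4 * 6)) 12, ?_⟩, ?_, ?_⟩
    · intro x y
      show Equiv.swap (4 : ZMod (4 * 6)) 12 y - Equiv.swap (4 : ZMod (4 * 6)) 12 x ∈
        star 6 (S6 : Set (ZMod (4 * 6))) ↔ y - x ∈ star 6 (S6 : Set (ZMod (4 * 6)))
      rw [star_S6, star_S6]
      revert x y
      decide +kernel
    · show Equiv.swap (4 : ZMod (4 * 6)) 12 0 = 0
      decide
    · show Equiv.swap (4 : ZMod (4 * 6)) 12 ((2 * 6 : ℕ) : ZMod (4 * 6)) ≠
        ((2 * 6 : ℕ) : ZMod (4 * 6))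
      decide
  · rintro K ⟨q, hq, hK⟩ hall
    have hmem : ∀ x : ZMod (4 * 6), 4 ∣ addOrderOf x → x ∉ K := by
      intro x hx hxK
      have hdvd : addOrderOf (⟨x, hxK⟩ : K) ∣ Nat.card K := addOrderOf_dvd_natCard _
      rw [AddSubgroup.addOrderOf_mk, hK] at hdvd
      obtain ⟨k, rfl⟩ := hq
      have := hx.trans hdvd
      omega
    have h1 : (1 : ZMod (4 * 6)) ∉ K := by
      apply hmem
      rw [ZMod.addOrderOf_one]
      norm_num
    have h13 : (13 : ZMod (4 * 6)) ∉ K := by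
      apply hmem
      have := ZMod.addOrderOf_coe (n := 4 * 6) 13 (by norm_num)
      rw [show ((13 : ℕ) : ZMod (4 * 6)) = 13 from rfl] at this
      rw [this]
      norm_num
    have h0 := hall 1 (by simp [S6]) (fun h => h1 h.1) 12 (by
      rw [AddSubgroup.mem_zmultiples_iff]
      exact ⟨2, by decide⟩)
    rcases h0 with h0 | h0
    · have h0' : (1 + 12 : ZMod (4 * 6)) ∈ S6 := by exact_mod_cast h0
      exact absurd h0' (by decide)
    · exact h13 h0.1

/-- **Disproof.** For every odd `h ≥ 3`, and also for `h = 6`, there is an inverse-closed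
`S ⊆ ℤ / 4h` such that `Cay(ℤ / 4h, S)` is connected, non-bipartite and twin-free,
`Cay(ℤ / 4h, S*)` has an automorphism fixing `0` and moving `2h`, but no subgroup `K` of order
twice an odd integer satisfies `(S \ K_o) + ⟨h⟩ ⊆ S ∪ K_o`. -/
theorem result : ∀ h : ℕ, (Odd h ∧ 3 ≤ h) ∨ h = 6 →
    ∃ (S : Set (ZMod (4 * h))) (hS : ∀ x ∈ S, -x ∈ S) (h0 : (0 : ZMod (4 * h)) ∉ S),
      Nontrivial' (Cay S hS h0) ∧ IsCounterexample h S hS := by
  rintro h (⟨ho, hh⟩ | rfl)
  · exact ⟨oddSet h, oddSet_neg, oddSet_zero hh, nontrivial_oddSet hh,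
      counterexample_oddSet ho hh⟩
  · exact ⟨S6, S6_neg, S6_zero, nontrivial_S6, counterexample_S6⟩

end Pool.Agent.Results.MP_250e3d_co.OddResidues
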